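import Mathlib

set_option autoImplicit false

open Polynomial

namespace Pool.Agent.H25.Ternary

/-- `Φ_{pq} (X^p - 1)(X^q - 1) = (X^{pq} - 1)(X - 1)`. -/
lemma binary_basic (p q : ℕ) (hp : p.Prime) (hq : q.Prime) (hpq : p ≠ q) :
    cyclotomic (p * q) ℤ * ((X ^ p - 1) * (X ^ q - 1)) = (X ^ (p * q) - 1) * (X - 1) := by
  haveI := Fact.mk hp
  have hnd : ¬ q ∣ p := fun h => hpq ((Nat.prime_dvd_prime_iff_eq hq hp).1 h).symm
  have h1 := cyclotomic_expand_eq_cyclotomic_mul hq hnd ℤ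
  have h2 : expand ℤ q (cyclotomic p ℤ) * (X ^ q - 1) = X ^ (p * q) - 1 := by
    have := congrArg (expand ℤ q) (cyclotomic_prime_mul_X_sub_one ℤ p)
    simp only [map_mul, map_sub, map_pow, expand_X, map_one] at this
    rw [this, ← pow_mul, mul_comm q p]
  calc cyclotomic (p * q) ℤ * ((X ^ p - 1) * (X ^ q - 1))
      = (cyclotomic (p * q) ℤ * cyclotomic p ℤ) * (X ^ q - 1) * (X - 1) := by
        rw [← cyclotomic_prime_mul_X_sub_one ℤ p]; ring
    _ = (X ^ (p * q) - 1) * (X - 1) := by rw [← h1, h2]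

/-- `Φ_{pqr} (X^{pq} - 1) = Φ_{pq}(X^r) (1 + ... + X^{p-1}) (X^q - 1)`. -/
lemma ternary_basic (p q r : ℕ) (hp : p.Prime) (hq : q.Prime) (hr : r.Prime)
    (hpq : p ≠ q) (hpr : p ≠ r) (hqr : q ≠ r) :
    cyclotomic (p * q * r) ℤ * (1 - X ^ (p * q)) =
      expand ℤ r (cyclotomic (p * q) ℤ) * ((∑ m ∈ Finset.range p, X ^ m) * (1 - X ^ q)) := by
  have hnd : ¬ r ∣ p * q := by
    intro h
    rcases (hr.dvd_mul).1 h with h | h
    · exact hpr ((Nat.prime_dvd_prime_iff_eq hr hp).1 h).symm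
    · exact hqr ((Nat.prime_dvd_prime_iff_eq hr hq).1 h).symm
  have h1 := cyclotomic_expand_eq_cyclotomic_mul hr hnd ℤ
  have h2 := binary_basic p q hp hq hpq
  have hX : (X - 1 : ℤ[X]) ≠ 0 := X_sub_C_ne_zero 1
  have hg : (∑ m ∈ Finset.range p, (X : ℤ[X]) ^ m) * (X - 1) = X ^ p - 1 := geom_sum_mul X p
  apply mul_right_cancel₀ hX
  calc cyclotomic (p * q * r) ℤ * (1 - X ^ (p * q)) * (X - 1)
      = - (cyclotomic (p * q * r) ℤ * ((X ^ (p * q) - 1) * (X - 1))) := by ring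
    _ = - (cyclotomic (p * q * r) ℤ * (cyclotomic (p * q) ℤ * ((X ^ p - 1) * (X ^ q - 1)))) := by
        rw [h2]
    _ = - (expand ℤ r (cyclotomic (p * q) ℤ) * ((X ^ p - 1) * (X ^ q - 1))) := by
        rw [h1]; ring
    _ = _ := by rw [← hg]; ring

/-- The formula of Lam and Leung for `Φ_{pq}`, multiplied by `X^{pq}`. -/
lemma binary_explicit (p q l u : ℕ) (hp : p.Prime) (hq : q.Prime) (hpq : p ≠ q)
    (hl : l + 1 ≤ p) (hu : u + 1 ≤ q)
    (h : (u + 1) * p + (l + 1) * q = p * q + 1) :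
    cyclotomic (p * q) ℤ * X ^ (p * q) =
      (∑ y ∈ Finset.range (u + 1), X ^ (y * p)) * (∑ x ∈ Finset.range (l + 1), X ^ (x * q)) *
        X ^ (p * q) -
      (∑ y ∈ Finset.Ico (u + 1) q, X ^ (y * p)) * (∑ x ∈ Finset.Ico (l + 1) p, X ^ (x * q)) := by
  have hpow : ∀ n : ℕ, 0 < n → (X ^ n - 1 : ℤ[X]) ≠ 0 := fun n hn => X_pow_sub_C_ne_zero hn 1
  have hne : ((X ^ p - 1) * (X ^ q - 1) : ℤ[X]) ≠ 0 :=
    mul_ne_zero (hpow p hp.pos) (hpow q hq.pos)
  apply mul_right_cancel₀ hne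
  have h1 := binary_basic p q hp hq hpq
  have hP : (∑ y ∈ Finset.range (u + 1), (X : ℤ[X]) ^ (y * p)) * (X ^ p - 1) =
      X ^ ((u + 1) * p) - 1 := by
    have := geom_sum_mul ((X : ℤ[X]) ^ p) (u + 1)
    simp only [← pow_mul] at this
    simp only [mul_comm _ p]
    exact this
  have hQ : (∑ x ∈ Finset.range (l + 1), (X : ℤ[X]) ^ (x * q)) * (X ^ q - 1) =
      X ^ ((l + 1) * q) - 1 := by
    have := geom_sum_mul ((X : ℤ[X]) ^ q) (l + 1)
    simp only [← pow_mul] at this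
    simp only [mul_comm _ q]
    exact this
  have hP' : (∑ y ∈ Finset.Ico (u + 1) q, (X : ℤ[X]) ^ (y * p)) * (X ^ p - 1) =
      X ^ (p * q) - X ^ ((u + 1) * p) := by
    have := geom_sum_Ico_mul ((X : ℤ[X]) ^ p) hu
    simp only [← pow_mul] at this
    simp only [mul_comm _ p]
    exact this
  have hQ' : (∑ x ∈ Finset.Ico (l + 1) p, (X : ℤ[X]) ^ (x * q)) * (X ^ q - 1) =
      X ^ (p * q) - X ^ ((l + 1) * q) := by
    have := geom_sum_Ico_mul ((X : ℤ[X]) ^ q) hl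
    simp only [← pow_mul] at this
    simp only [mul_comm _ q]
    rw [this, mul_comm q p]
  have hAB : (X : ℤ[X]) ^ ((u + 1) * p) * X ^ ((l + 1) * q) = X ^ (p * q) * X := by
    rw [← pow_add, h, pow_succ]
  set A := (X : ℤ[X]) ^ ((u + 1) * p)
  set B := (X : ℤ[X]) ^ ((l + 1) * q)
  set Z := (X : ℤ[X]) ^ (p * q)
  calc cyclotomic (p * q) ℤ * Z * ((X ^ p - 1) * (X ^ q - 1))
      = Z * (cyclotomic (p * q) ℤ * ((X ^ p - 1) * (X ^ q - 1))) := by ring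
    _ = Z * ((Z - 1) * (X - 1)) := by rw [h1]
    _ = (A - 1) * (B - 1) * Z - (Z - A) * (Z - B) := by
        linear_combination (1 - Z) * hAB
    _ = _ := by rw [← hP, ← hQ, ← hP', ← hQ']; ring

end Pool.Agent.H25.Ternary
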