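import Mathlib
import Pool.Agent.H25.TernaryA

set_option autoImplicit false

open Polynomial

namespace Pool.Agent.H25.Ternary

/-- the truncated coefficient of `Φ_{pq}` in terms of the coordinates `x, y`. -/
def H (p q l T x y : ℕ) : ℤ :=
  (if x ≤ l ∧ p * y + (l + 1) * q ≤ p * q ∧ x * q + y * p ≤ T then 1 else 0) -
  (if l < x ∧ p * q < p * y + (l + 1) * q ∧ x * q + y * p ≤ T + p * q then 1 else 0)

/-- the weights modulo `p`. -/
def W (p q r k m x : ℕ) : ℤ :=
  (if (p : ℤ) ∣ (k : ℤ) - m - r * q * x then 1 else 0) -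
  (if (p : ℤ) ∣ (k : ℤ) - m - q - r * q * x then 1 else 0)

/-- the geometric power series `1 + X^N + X^{2N} + ...` -/
noncomputable def G (N : ℕ) : PowerSeries ℤ := PowerSeries.mk (fun n => if N ∣ n then 1 else 0)

lemma coeff_X_pow_mul_G (N e n : ℕ) :
    PowerSeries.coeff n (PowerSeries.X ^ e * G N) = if e ≤ n ∧ N ∣ n - e then 1 else 0 := by
  rw [PowerSeries.coeff_X_pow_mul', G]
  by_cases h : e ≤ n
  · simp [h]
  · simp [h]

lemma one_sub_mul_G (N : ℕ) (hN : 0 < N) : (1 - PowerSeries.X ^ N) * G N = 1 := by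
  ext n
  rw [sub_mul, one_mul, map_sub, coeff_X_pow_mul_G, G, PowerSeries.coeff_mk, PowerSeries.coeff_one]
  by_cases hn : n = 0
  · subst hn
    simp [hN.ne']
  · rw [if_neg hn]
    by_cases h : N ∣ n
    · have h1 : N ≤ n := Nat.le_of_dvd (Nat.pos_of_ne_zero hn) h
      rw [if_pos h, if_pos ⟨h1, Nat.dvd_sub h dvd_rfl⟩, sub_self]
    · rw [if_neg h, if_neg, sub_self]
      rintro ⟨h1, h2⟩
      exact h ((Nat.dvd_sub_iff_left h1 dvd_rfl).1 h2)

/-- the indicator of `e ≤ n` and `N ∣ n - e`. -/
def ind (N n e : ℕ) : ℤ := if e ≤ n ∧ N ∣ n - e then 1 else 0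

lemma coeff_term (N n e m q : ℕ) :
    PowerSeries.coeff n (PowerSeries.X ^ e * (PowerSeries.X ^ m * (1 - PowerSeries.X ^ q) * G N)) =
      ind N n (e + m) - ind N n (e + (m + q)) := by
  have : PowerSeries.X ^ e * (PowerSeries.X ^ m * (1 - PowerSeries.X ^ q) * G N) =
      PowerSeries.X ^ (e + m) * G N - PowerSeries.X ^ (e + (m + q)) * G N := by
    rw [pow_add, pow_add, pow_add]; ring
  rw [this, map_sub, coeff_X_pow_mul_G, coeff_X_pow_mul_G]
  rfl

lemma coeff_formula1 (p q r l u k : ℕ) (hp : p.Prime) (hq : q.Prime) (hr : r.Prime)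
    (hpq : p < q) (hqr : q < r) (hl : l + 1 ≤ p) (hu : u + 1 ≤ q)
    (h : (u + 1) * p + (l + 1) * q = p * q + 1) :
    (cyclotomic (p * q * r) ℤ).coeff k =
      ∑ m ∈ Finset.range p,
        ((∑ y ∈ Finset.range (u + 1), ∑ x ∈ Finset.range (l + 1),
            (ind (p * q) (k + r * (p * q)) (r * (y * p + x * q + p * q) + m) -
             ind (p * q) (k + r * (p * q)) (r * (y * p + x * q + p * q) + (m + q)))) -
         (∑ y ∈ Finset.Ico (u + 1) q, ∑ x ∈ Finset.Ico (l + 1) p,
            (ind (p * q) (k + r * (p * q)) (r * (y * p + x * q) + m) -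
             ind (p * q) (k + r * (p * q)) (r * (y * p + x * q) + (m + q))))) := by
  have hN : 0 < p * q := Nat.mul_pos hp.pos hq.pos
  have h1 := ternary_basic p q r hp hq hr hpq.ne (hpq.trans hqr).ne hqr.ne
  have h2 := congrArg (expand ℤ r) (binary_explicit p q l u hp hq hpq.ne hl hu h)
  simp only [map_mul, map_sub, map_sum, map_pow, expand_X, ← pow_mul] at h2
  -- multiply h1 by X^(r * (p q))
  have h3 : cyclotomic (p * q * r) ℤ * X ^ (r * (p * q)) * (1 - X ^ (p * q)) =
      ((∑ y ∈ Finset.range (u + 1), ∑ x ∈ Finset.range (l + 1),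
          X ^ (r * (y * p + x * q + p * q))) -
        (∑ y ∈ Finset.Ico (u + 1) q, ∑ x ∈ Finset.Ico (l + 1) p,
          X ^ (r * (y * p + x * q)))) *
        ((∑ m ∈ Finset.range p, X ^ m) * (1 - X ^ q)) := by
    have h4 : expand ℤ r (cyclotomic (p * q) ℤ) * X ^ (r * (p * q)) =
        (∑ y ∈ Finset.range (u + 1), ∑ x ∈ Finset.range (l + 1),
          X ^ (r * (y * p + x * q + p * q))) -
        (∑ y ∈ Finset.Ico (u + 1) q, ∑ x ∈ Finset.Ico (l + 1) p,
          X ^ (r * (y * p + x * q))) := by
      rw [h2]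
      congr 1
      · rw [Finset.sum_mul, Finset.sum_mul]
        apply Finset.sum_congr rfl
        intro y _
        rw [Finset.mul_sum, Finset.sum_mul]
        apply Finset.sum_congr rfl
        intro x _
        rw [← pow_add, ← pow_add]
        congr 1
        ring
      · rw [Finset.sum_mul]
        apply Finset.sum_congr rfl
        intro y _
        rw [Finset.mul_sum]
        apply Finset.sum_congr rfl
        intro x _
        rw [← pow_add]
        congr 1
        ring
    rw [← h4]
    calc cyclotomic (p * q * r) ℤ * X ^ (r * (p * q)) * (1 - X ^ (p * q))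
        = (cyclotomic (p * q * r) ℤ * (1 - X ^ (p * q))) * X ^ (r * (p * q)) := by ring
      _ = _ := by rw [h1]; ring
  have h5 := congrArg (fun f : ℤ[X] => ((f : PowerSeries ℤ))) h3
  simp only [Polynomial.coe_mul, Polynomial.coe_sub, Polynomial.coe_one, Polynomial.coe_pow,
    Polynomial.coe_X] at h5
  have hsum : ∀ (s : Finset ℕ) (f : ℕ → ℤ[X]),
      ((∑ i ∈ s, f i : ℤ[X]) : PowerSeries ℤ) = ∑ i ∈ s, ((f i : ℤ[X]) : PowerSeries ℤ) := by
    intro s f
    exact map_sum (Polynomial.coeToPowerSeries.ringHom (R := ℤ)) f s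
  simp only [hsum, Polynomial.coe_pow, Polynomial.coe_X] at h5
  have h6 := congrArg (fun f => f * G (p * q)) h5
  rw [mul_assoc, one_sub_mul_G (p * q) hN, mul_one] at h6
  have h7 := congrArg (PowerSeries.coeff (k + r * (p * q))) h6
  rw [PowerSeries.coeff_mul_X_pow, Polynomial.coeff_coe] at h7
  rw [h7]
  have h8 : ∀ A : PowerSeries ℤ, A * ((∑ m ∈ Finset.range p, PowerSeries.X ^ m) *
      (1 - PowerSeries.X ^ q)) * G (p * q) =
      ∑ m ∈ Finset.range p, A * (PowerSeries.X ^ m * (1 - PowerSeries.X ^ q) * G (p * q)) := by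
    intro A
    rw [← Finset.mul_sum, ← Finset.sum_mul, ← Finset.sum_mul]
    ring
  rw [h8, map_sum]
  apply Finset.sum_congr rfl
  intro m _
  rw [sub_mul, map_sub]
  congr 1
  · rw [Finset.sum_mul, map_sum]
    apply Finset.sum_congr rfl
    intro y _
    rw [Finset.sum_mul, map_sum]
    apply Finset.sum_congr rfl
    intro x _
    exact coeff_term _ _ _ _ _
  · rw [Finset.sum_mul, map_sum]
    apply Finset.sum_congr rfl
    intro y _
    rw [Finset.sum_mul, map_sum]
    apply Finset.sum_congr rfl
    intro x _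
    exact coeff_term _ _ _ _ _

/-- divisibility indicator modulo `p q`. -/
lemma ind_eq1 (N r k d v : ℕ) (hr : 0 < r) (hd : d < N) :
    ind N (k + r * N) (r * (v + N) + d) =
      if v ≤ k / r ∧ (N : ℤ) ∣ (k : ℤ) - d - r * v then 1 else 0 := by
  unfold ind
  have key : (r * (v + N) + d ≤ k + r * N ∧ N ∣ k + r * N - (r * (v + N) + d)) ↔
      (v ≤ k / r ∧ (N : ℤ) ∣ (k : ℤ) - d - r * v) := by
    rw [Nat.le_div_iff_mul_le hr]
    constructor
    · rintro ⟨h1, h2⟩
      have h3 : r * v + d ≤ k := by nlinarith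
      refine ⟨by nlinarith, ?_⟩
      have h4 := (Int.natCast_dvd_natCast.2 h2)
      rw [Nat.cast_sub h1] at h4
      push_cast at h4
      have h5 : (k : ℤ) - d - r * v = (k : ℤ) + r * N - (r * (v + N) + d) := by ring
      rw [h5]
      exact h4
    · rintro ⟨h1, h2⟩
      -- k - d - r v > -N, divisible by N, hence ≥ 0
      have h3 : (0 : ℤ) ≤ (k : ℤ) - d - r * v := by
        obtain ⟨c, hc⟩ := h2
        by_contra hneg
        push Not at hneg
        have h4 : (k : ℤ) - r * v ≥ 0 := by
          have : ((v * r : ℕ) : ℤ) ≤ k := by exact_mod_cast h1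
          push_cast at this
          linarith
        have h5 : (d : ℤ) < N := by exact_mod_cast hd
        have hc0 : c < 0 := by
          by_contra hc0
          push Not at hc0
          have : (0 : ℤ) ≤ (N : ℤ) * c := mul_nonneg (by positivity) hc0
          linarith
        have h6 : (N : ℤ) * c ≤ (N : ℤ) * (-1) :=
          mul_le_mul_of_nonneg_left (by omega) (by positivity)
        linarith
      have h4 : r * (v + N) + d ≤ k + r * N := by
        zify
        linarith
      refine ⟨h4, ?_⟩
      rw [← Int.natCast_dvd_natCast, Nat.cast_sub h4]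
      push_cast
      have h5 : (k : ℤ) + r * N - (r * (v + N) + d) = (k : ℤ) - d - r * v := by ring
      rw [h5]
      exact h2
  simp only [key]

lemma ind_eq2 (N r k d v : ℕ) (hr : 0 < r) (hd : d < N) :
    ind N (k + r * N) (r * v + d) =
      if v ≤ k / r + N ∧ (N : ℤ) ∣ (k : ℤ) - d - r * v then 1 else 0 := by
  unfold ind
  have key : (r * v + d ≤ k + r * N ∧ N ∣ k + r * N - (r * v + d)) ↔
      (v ≤ k / r + N ∧ (N : ℤ) ∣ (k : ℤ) - d - r * v) := by
    have hdiv : k / r + N = (k + r * N) / r := by
      rw [Nat.add_mul_div_left _ _ hr]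
    rw [hdiv, Nat.le_div_iff_mul_le hr]
    constructor
    · rintro ⟨h1, h2⟩
      refine ⟨by nlinarith, ?_⟩
      have h4 := (Int.natCast_dvd_natCast.2 h2)
      rw [Nat.cast_sub h1] at h4
      push_cast at h4
      have h5 : (k : ℤ) - d - r * v = (k : ℤ) + r * N - (r * v + d) - r * N := by ring
      rw [h5]
      exact dvd_sub h4 (Dvd.intro_left _ rfl)
    · rintro ⟨h1, h2⟩
      have h2' : (N : ℤ) ∣ (k : ℤ) + r * N - (r * v + d) := by
        have h5 : (k : ℤ) + r * N - (r * v + d) = (k : ℤ) - d - r * v + r * N := by ring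
        rw [h5]
        exact dvd_add h2 (Dvd.intro_left _ rfl)
      have h3 : (0 : ℤ) ≤ (k : ℤ) + r * N - (r * v + d) := by
        obtain ⟨c, hc⟩ := h2'
        by_contra hneg
        push Not at hneg
        have h4 : (k : ℤ) + r * N - r * v ≥ 0 := by
          have : ((v * r : ℕ) : ℤ) ≤ ((k + r * N : ℕ) : ℤ) := by exact_mod_cast h1
          push_cast at this
          linarith
        have h5 : (d : ℤ) < N := by exact_mod_cast hd
        have hc0 : c < 0 := by
          by_contra hc0
          push Not at hc0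
          have : (0 : ℤ) ≤ (N : ℤ) * c := mul_nonneg (by positivity) hc0
          linarith
        have h6 : (N : ℤ) * c ≤ (N : ℤ) * (-1) :=
          mul_le_mul_of_nonneg_left (by omega) (by positivity)
        linarith
      have h4 : r * v + d ≤ k + r * N := by
        zify
        linarith
      refine ⟨h4, ?_⟩
      rw [← Int.natCast_dvd_natCast, Nat.cast_sub h4]
      push_cast
      exact h2'
  simp only [key]

/-- sum for a fixed shift `d`. -/
lemma shift_sum (p q r l u k d : ℕ) (hr : 0 < r) (hd : d < p * q)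
    (hl : l + 1 ≤ p) (hu : u + 1 ≤ q)
    (h : (u + 1) * p + (l + 1) * q = p * q + 1) :
    (∑ y ∈ Finset.range (u + 1), ∑ x ∈ Finset.range (l + 1),
        ind (p * q) (k + r * (p * q)) (r * (y * p + x * q + p * q) + d)) -
      (∑ y ∈ Finset.Ico (u + 1) q, ∑ x ∈ Finset.Ico (l + 1) p,
        ind (p * q) (k + r * (p * q)) (r * (y * p + x * q) + d)) =
    ∑ y ∈ Finset.range q, ∑ x ∈ Finset.range p,
      (if ((p * q : ℕ) : ℤ) ∣ (k : ℤ) - d - r * ((x * q + y * p : ℕ) : ℤ) then
        H p q l (k / r) x y else 0) := by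
  have hyu : ∀ y : ℕ, y < u + 1 ↔ p * y + (l + 1) * q ≤ p * q := by
    intro y
    constructor
    · intro hy
      nlinarith
    · intro hy
      by_contra hcon
      push Not at hcon
      nlinarith
  have e1 : (∑ y ∈ Finset.range (u + 1), ∑ x ∈ Finset.range (l + 1),
        ind (p * q) (k + r * (p * q)) (r * (y * p + x * q + p * q) + d)) =
      ∑ y ∈ Finset.range q, ∑ x ∈ Finset.range p,
        (if ((p * q : ℕ) : ℤ) ∣ (k : ℤ) - d - r * ((x * q + y * p : ℕ) : ℤ) then
          (if x ≤ l ∧ p * y + (l + 1) * q ≤ p * q ∧ x * q + y * p ≤ k / r then 1 else 0)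
          else 0) := by
    rw [← Finset.sum_subset (Finset.range_subset_range.2 hu)]
    · apply Finset.sum_congr rfl
      intro y hy
      rw [← Finset.sum_subset (Finset.range_subset_range.2 hl)]
      · apply Finset.sum_congr rfl
        intro x hx
        rw [Finset.mem_range] at hx hy
        rw [ind_eq1 _ _ _ _ _ hr hd, add_comm (y * p)]
        have h1 := (hyu y).1 hy
        have h2 : x ≤ l := by omega
        by_cases h3 : ((p * q : ℕ) : ℤ) ∣ (k : ℤ) - d - r * ((x * q + y * p : ℕ) : ℤ)
        · simp only [h3, h1, h2, and_true, true_and, if_true]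
        · simp only [h3, and_false, if_false]
      · intro x _ hx
        rw [Finset.mem_range] at hx
        have : ¬ x ≤ l := by omega
        simp only [this, false_and, if_false, ite_self]
    · intro y _ hy
      rw [Finset.mem_range, hyu y] at hy
      apply Finset.sum_eq_zero
      intro x _
      simp only [hy, false_and, and_false, if_false, ite_self]
  have e2 : (∑ y ∈ Finset.Ico (u + 1) q, ∑ x ∈ Finset.Ico (l + 1) p,
        ind (p * q) (k + r * (p * q)) (r * (y * p + x * q) + d)) =
      ∑ y ∈ Finset.range q, ∑ x ∈ Finset.range p,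
        (if ((p * q : ℕ) : ℤ) ∣ (k : ℤ) - d - r * ((x * q + y * p : ℕ) : ℤ) then
          (if l < x ∧ p * q < p * y + (l + 1) * q ∧ x * q + y * p ≤ k / r + p * q then 1 else 0)
          else 0) := by
    have hsub1 : Finset.Ico (u + 1) q ⊆ Finset.range q := by
      intro y hy; rw [Finset.mem_Ico] at hy; rw [Finset.mem_range]; exact hy.2
    have hsub2 : Finset.Ico (l + 1) p ⊆ Finset.range p := by
      intro y hy; rw [Finset.mem_Ico] at hy; rw [Finset.mem_range]; exact hy.2
    rw [← Finset.sum_subset hsub1]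
    · apply Finset.sum_congr rfl
      intro y hy
      rw [← Finset.sum_subset hsub2]
      · apply Finset.sum_congr rfl
        intro x hx
        rw [Finset.mem_Ico] at hx hy
        rw [ind_eq2 _ _ _ _ _ hr hd, add_comm (y * p)]
        have h1 : p * q < p * y + (l + 1) * q := by
          by_contra hcon
          push Not at hcon
          have := (hyu y).2 hcon
          omega
        have h2 : l < x := by omega
        by_cases h3 : ((p * q : ℕ) : ℤ) ∣ (k : ℤ) - d - r * ((x * q + y * p : ℕ) : ℤ)
        · simp only [h3, h1, h2, and_true, true_and, if_true]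
        · simp only [h3, and_false, if_false]
      · intro x hx1 hx
        rw [Finset.mem_Ico] at hx
        rw [Finset.mem_range] at hx1
        have : ¬ l < x := by omega
        simp only [this, false_and, if_false, ite_self]
    · intro y hy1 hy
      rw [Finset.mem_Ico] at hy
      rw [Finset.mem_range] at hy1
      have h1 : ¬ p * q < p * y + (l + 1) * q := by
        have h2 : y < u + 1 := by omega
        have := (hyu y).1 h2
        omega
      apply Finset.sum_eq_zero
      intro x _
      simp only [h1, false_and, and_false, if_false, ite_self]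
  rw [e1, e2, ← Finset.sum_sub_distrib]
  apply Finset.sum_congr rfl
  intro y _
  rw [← Finset.sum_sub_distrib]
  apply Finset.sum_congr rfl
  intro x _
  unfold H
  split_ifs <;> simp

end Pool.Agent.H25.Ternary
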