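import Mathlib
import Pool.Agent.H25.TernaryB

set_option autoImplicit false

open Polynomial

namespace Pool.Agent.H25.Ternary

lemma dvd_mod_p (p q r k d x y : ℕ) :
    ((p : ℤ) ∣ (k : ℤ) - d - r * ((x * q + y * p : ℕ) : ℤ)) ↔ (p : ℤ) ∣ (k : ℤ) - d - r * q * x := by
  have h : (k : ℤ) - d - r * ((x * q + y * p : ℕ) : ℤ) =
      ((k : ℤ) - d - r * q * x) - (p : ℤ) * (r * y) := by push_cast; ring
  rw [h]
  exact dvd_sub_left (Dvd.intro _ rfl)

lemma dvd_mod_q (p q r k d x y : ℕ) :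
    ((q : ℤ) ∣ (k : ℤ) - d - r * ((x * q + y * p : ℕ) : ℤ)) ↔ (q : ℤ) ∣ (k : ℤ) - d - r * p * y := by
  have h : (k : ℤ) - d - r * ((x * q + y * p : ℕ) : ℤ) =
      ((k : ℤ) - d - r * p * y) - (q : ℤ) * (r * x) := by push_cast; ring
  rw [h]
  exact dvd_sub_left (Dvd.intro _ rfl)

lemma dvd_pq (p q : ℕ) (hpq : Nat.Coprime p q) (z : ℤ) :
    ((p * q : ℕ) : ℤ) ∣ z ↔ (p : ℤ) ∣ z ∧ (q : ℤ) ∣ z := by
  have hc : IsCoprime (p : ℤ) (q : ℤ) := Nat.isCoprime_iff_coprime.2 hpq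
  push_cast
  constructor
  · intro h
    exact ⟨(Dvd.intro _ rfl).trans h, (Dvd.intro_left _ rfl).trans h⟩
  · rintro ⟨h1, h2⟩
    exact hc.mul_dvd h1 h2

/-- uniqueness of the `y` coordinate. -/
lemma y_unique (p q r k m Y y : ℕ) (hp : p.Prime) (hq : q.Prime) (hr : r.Prime)
    (hpq : p < q) (hqr : q < r) (hY : Y < q) (hYd : (q : ℤ) ∣ (k : ℤ) - m - r * p * Y)
    (hy : y < q) : (q : ℤ) ∣ (k : ℤ) - m - r * p * y ↔ y = Y := by
  constructor
  · intro h
    have h1 : (q : ℤ) ∣ ((r * p : ℕ) : ℤ) * ((y : ℤ) - Y) := by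
      have := dvd_sub hYd h
      have h2 : ((k : ℤ) - m - r * p * Y) - ((k : ℤ) - m - r * p * y) =
        ((r * p : ℕ) : ℤ) * ((y : ℤ) - Y) := by push_cast; ring
      rwa [h2] at this
    have h3 : IsCoprime (q : ℤ) ((r * p : ℕ) : ℤ) := by
      rw [Nat.isCoprime_iff_coprime]
      exact Nat.Coprime.mul_right ((Nat.coprime_primes hq hr).2 hqr.ne)
        ((Nat.coprime_primes hq hp).2 hpq.ne')
    have h4 : (q : ℤ) ∣ (y : ℤ) - Y := h3.dvd_of_dvd_mul_left h1
    have h5 : (y : ℤ) - Y = 0 := by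
      apply Int.eq_zero_of_abs_lt_dvd h4
      rw [abs_lt]
      constructor <;> omega
    omega
  · rintro rfl
    exact hYd

lemma sum_to_single (p q r l k m d Y : ℕ) (hp : p.Prime) (hq : q.Prime) (hr : r.Prime)
    (hpq : p < q) (hqr : q < r) (hd : d = m ∨ d = m + q)
    (hY : Y < q) (hYd : (q : ℤ) ∣ (k : ℤ) - m - r * p * Y) :
    ∑ y ∈ Finset.range q, ∑ x ∈ Finset.range p,
      (if ((p * q : ℕ) : ℤ) ∣ (k : ℤ) - d - r * ((x * q + y * p : ℕ) : ℤ) then
        H p q l (k / r) x y else 0) =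
    ∑ x ∈ Finset.range p, (if (p : ℤ) ∣ (k : ℤ) - d - r * q * x then (1 : ℤ) else 0) *
      H p q l (k / r) x Y := by
  have hcop : Nat.Coprime p q := (Nat.coprime_primes hp hq).2 hpq.ne
  rw [Finset.sum_eq_single Y]
  · apply Finset.sum_congr rfl
    intro x _
    have hiff := (dvd_pq p q hcop ((k : ℤ) - d - r * ((x * q + Y * p : ℕ) : ℤ))).trans
      (and_congr (dvd_mod_p p q r k d x Y) (dvd_mod_q p q r k d x Y))
    simp only [hiff]
    have h1 : (q : ℤ) ∣ (k : ℤ) - d - r * p * Y := by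
      rcases hd with rfl | rfl
      · exact hYd
      · have : (k : ℤ) - ((m + q : ℕ) : ℤ) - r * p * Y = ((k : ℤ) - m - r * p * Y) - q := by
          push_cast; ring
        rw [this]
        exact dvd_sub hYd dvd_rfl
    by_cases h2 : (p : ℤ) ∣ (k : ℤ) - d - r * q * x
    · simp [h1, h2]
    · simp [h2]
  · intro y hy hne
    apply Finset.sum_eq_zero
    intro x _
    rw [if_neg]
    rw [dvd_pq p q hcop, dvd_mod_q]
    rintro ⟨_, h2⟩
    apply hne
    rw [Finset.mem_range] at hy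
    apply (y_unique p q r k m Y y hp hq hr hpq hqr hY hYd hy).1
    rcases hd with rfl | rfl
    · exact h2
    · have : (k : ℤ) - m - r * p * y = ((k : ℤ) - ((m + q : ℕ) : ℤ) - r * p * y) + q := by
        push_cast; ring
      rw [this]
      exact dvd_add h2 dvd_rfl
  · intro h
    rw [Finset.mem_range] at h
    exact absurd hY h

/-- Kaplan's formula for the coefficients of ternary cyclotomic polynomials. -/
theorem kaplan (p q r l u k : ℕ) (hp : p.Prime) (hq : q.Prime) (hr : r.Prime)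
    (hpq : p < q) (hqr : q < r) (hl : l + 1 ≤ p) (hu : u + 1 ≤ q)
    (h : (u + 1) * p + (l + 1) * q = p * q + 1)
    (Y : ℕ → ℕ) (hY : ∀ m, m < p → Y m < q ∧ (q : ℤ) ∣ (k : ℤ) - m - r * p * Y m) :
    (cyclotomic (p * q * r) ℤ).coeff k =
      ∑ m ∈ Finset.range p, ∑ x ∈ Finset.range p, W p q r k m x * H p q l (k / r) x (Y m) := by
  rw [coeff_formula1 p q r l u k hp hq hr hpq hqr hl hu h]
  apply Finset.sum_congr rfl
  intro m hm
  rw [Finset.mem_range] at hm
  obtain ⟨hY1, hY2⟩ := hY m hm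
  have hm1 : m < p * q := lt_of_lt_of_le hm (Nat.le_mul_of_pos_right p hq.pos)
  have hm2 : m + q < p * q := by
    have := hp.two_le
    nlinarith
  have s1 := shift_sum p q r l u k m hr.pos hm1 hl hu h
  have s2 := shift_sum p q r l u k (m + q) hr.pos hm2 hl hu h
  rw [sum_to_single p q r l k m m (Y m) hp hq hr hpq hqr (Or.inl rfl) hY1 hY2] at s1
  rw [sum_to_single p q r l k m (m + q) (Y m) hp hq hr hpq hqr (Or.inr rfl) hY1 hY2] at s2
  have e : ((∑ y ∈ Finset.range (u + 1), ∑ x ∈ Finset.range (l + 1),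
            (ind (p * q) (k + r * (p * q)) (r * (y * p + x * q + p * q) + m) -
             ind (p * q) (k + r * (p * q)) (r * (y * p + x * q + p * q) + (m + q)))) -
         (∑ y ∈ Finset.Ico (u + 1) q, ∑ x ∈ Finset.Ico (l + 1) p,
            (ind (p * q) (k + r * (p * q)) (r * (y * p + x * q) + m) -
             ind (p * q) (k + r * (p * q)) (r * (y * p + x * q) + (m + q))))) =
      ((∑ y ∈ Finset.range (u + 1), ∑ x ∈ Finset.range (l + 1),
          ind (p * q) (k + r * (p * q)) (r * (y * p + x * q + p * q) + m)) -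
        (∑ y ∈ Finset.Ico (u + 1) q, ∑ x ∈ Finset.Ico (l + 1) p,
          ind (p * q) (k + r * (p * q)) (r * (y * p + x * q) + m))) -
      ((∑ y ∈ Finset.range (u + 1), ∑ x ∈ Finset.range (l + 1),
          ind (p * q) (k + r * (p * q)) (r * (y * p + x * q + p * q) + (m + q))) -
        (∑ y ∈ Finset.Ico (u + 1) q, ∑ x ∈ Finset.Ico (l + 1) p,
          ind (p * q) (k + r * (p * q)) (r * (y * p + x * q) + (m + q)))) := by
    simp only [Finset.sum_sub_distrib]
    ring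
  rw [e, s1, s2, ← Finset.sum_sub_distrib]
  apply Finset.sum_congr rfl
  intro x _
  rw [← sub_mul, W]
  congr 2
  push_cast
  have : (k : ℤ) - (m + q) - r * q * x = (k : ℤ) - m - q - r * q * x := by ring
  rw [this]

lemma W_bound (p q r k m x : ℕ) : |W p q r k m x| ≤ 1 := by
  unfold W; split_ifs <;> simp

lemma H_bound (p q l T x y : ℕ) : |H p q l T x y| ≤ 1 := by
  unfold H; split_ifs <;> simp

/-! ### The transfer -/

/-- `W` only depends on residues modulo `p`. -/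
lemma W_congr (p q r k q₁ r₁ k₁ m x : ℕ) (hq : (p : ℤ) ∣ (q : ℤ) - q₁)
    (hr : (p : ℤ) ∣ (r : ℤ) - r₁) (hk : (p : ℤ) ∣ (k : ℤ) - k₁) :
    W p q r k m x = W p q₁ r₁ k₁ m x := by
  have hrq : (p : ℤ) ∣ (r : ℤ) * q * x - r₁ * q₁ * x := by
    have : (r : ℤ) * q * x - r₁ * q₁ * x = ((r : ℤ) - r₁) * (q * x) + ((q : ℤ) - q₁) * (r₁ * x) := by
      ring
    rw [this]
    exact dvd_add (hr.mul_right _) (hq.mul_right _)
  have e1 : ((p : ℤ) ∣ (k : ℤ) - m - r * q * x) ↔ ((p : ℤ) ∣ (k₁ : ℤ) - m - r₁ * q₁ * x) := by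
    have h : (k : ℤ) - m - r * q * x =
        ((k₁ : ℤ) - m - r₁ * q₁ * x) + (((k : ℤ) - k₁) - (r * q * x - r₁ * q₁ * x)) := by ring
    rw [h]
    exact dvd_add_left (dvd_sub hk hrq)
  have e2 : ((p : ℤ) ∣ (k : ℤ) - m - q - r * q * x) ↔
      ((p : ℤ) ∣ (k₁ : ℤ) - m - q₁ - r₁ * q₁ * x) := by
    have h : (k : ℤ) - m - q - r * q * x =
        ((k₁ : ℤ) - m - q₁ - r₁ * q₁ * x) +
          (((k : ℤ) - k₁) - (r * q * x - r₁ * q₁ * x) - ((q : ℤ) - q₁)) := by ring
    rw [h]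
    exact dvd_add_left (dvd_sub (dvd_sub hk hrq) hq)
  unfold W
  simp only [e1, e2]

/-- `H` is preserved by the approximate scaling. -/
lemma H_scale (p q₁ l u₁ T₁ x y₁ lam del j : ℕ) (hx : x < p) (hj : j ≤ p) (hl : l + 1 ≤ p)
    (hdel : del < q₁) (h : (u₁ + 1) * p + (l + 1) * q₁ = p * q₁ + 1)
    (hlam : (2 * p + p ^ 2) * q₁ + 1 ≤ lam) (hp : 1 < p) :
    H p (lam * q₁ + del) l (lam * T₁ + (p + p ^ 2) * q₁) x (lam * y₁ + j * del) =
      H p q₁ l T₁ x y₁ := by
  have c1 : p * (lam * y₁ + j * del) + (l + 1) * (lam * q₁ + del) ≤ p * (lam * q₁ + del) ↔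
      p * y₁ + (l + 1) * q₁ ≤ p * q₁ := by
    constructor
    · intro h1
      by_contra hcon
      push Not at hcon
      -- G₁ ≥ 1
      have h2 : lam * (p * q₁ + 1) ≤ lam * (p * y₁ + (l + 1) * q₁) := Nat.mul_le_mul_left _ hcon
      have h3 : p * del ≤ p * q₁ := Nat.mul_le_mul_left _ hdel.le
      have h4 : p * q₁ + 1 ≤ lam := by nlinarith
      have h5 : 0 ≤ p * (j * del) + (l + 1) * del := Nat.zero_le _
      nlinarith
    · intro h1
      have hy : y₁ ≤ u₁ := by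
        by_contra hcon
        push Not at hcon
        nlinarith
      have h2 : p * y₁ + (l + 1) * q₁ + p ≤ p * q₁ + 1 := by nlinarith
      have h3 : lam * (p * y₁ + (l + 1) * q₁ + p) ≤ lam * (p * q₁ + 1) := Nat.mul_le_mul_left _ h2
      have h4 : p * (j * del) ≤ p * (p * q₁) :=
        Nat.mul_le_mul_left _ (Nat.mul_le_mul hj hdel.le)
      have h5 : (l + 1) * del ≤ p * del := Nat.mul_le_mul_right _ hl
      have h6 : p * q₁ * p ≤ lam * (p - 1) * 1 := by
        have h7 : p * q₁ * 2 ≤ lam := by nlinarith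
        have h8 : p ≤ 2 * (p - 1) := by omega
        calc p * q₁ * p ≤ p * q₁ * (2 * (p - 1)) := Nat.mul_le_mul_left _ h8
          _ = (p * q₁ * 2) * (p - 1) := by ring
          _ ≤ lam * (p - 1) := Nat.mul_le_mul_right _ h7
          _ = lam * (p - 1) * 1 := by ring
      have h9 : lam * p = lam * (p - 1) + lam := by
        obtain ⟨p', rfl⟩ : ∃ p', p = p' + 1 := ⟨p - 1, by omega⟩
        simp; ring
      nlinarith
  have hC : x * del + j * del * p ≤ (p + p ^ 2) * q₁ := by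
    have h1 : x * del ≤ p * q₁ := Nat.mul_le_mul hx.le hdel.le
    have h2 : j * del * p ≤ p * q₁ * p := Nat.mul_le_mul_right _ (Nat.mul_le_mul hj hdel.le)
    nlinarith
  have c2 : x * (lam * q₁ + del) + (lam * y₁ + j * del) * p ≤ lam * T₁ + (p + p ^ 2) * q₁ ↔
      x * q₁ + y₁ * p ≤ T₁ := by
    constructor
    · intro h1
      by_contra hcon
      push Not at hcon
      have h2 : lam * (T₁ + 1) ≤ lam * (x * q₁ + y₁ * p) := Nat.mul_le_mul_left _ hcon
      have h4 : 0 ≤ x * del := Nat.zero_le _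
      have h5 : 0 ≤ j * del * p := Nat.zero_le _
      have h6 : 0 ≤ p * q₁ := Nat.zero_le _
      ring_nf at h1 h2 h4 h5 h6 hlam
      linarith
    · intro h1
      have h2 : lam * (x * q₁ + y₁ * p) ≤ lam * T₁ := Nat.mul_le_mul_left _ h1
      nlinarith
  have c3 : x * (lam * q₁ + del) + (lam * y₁ + j * del) * p ≤
        lam * T₁ + (p + p ^ 2) * q₁ + p * (lam * q₁ + del) ↔
      x * q₁ + y₁ * p ≤ T₁ + p * q₁ := by
    constructor
    · intro h1
      by_contra hcon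
      push Not at hcon
      have h2 : lam * (T₁ + p * q₁ + 1) ≤ lam * (x * q₁ + y₁ * p) := Nat.mul_le_mul_left _ hcon
      have h3 : p * del ≤ p * q₁ := Nat.mul_le_mul_left _ hdel.le
      have h4 : 0 ≤ x * del := Nat.zero_le _
      have h5 : 0 ≤ j * del * p := Nat.zero_le _
      have h6 : 0 ≤ p * q₁ := Nat.zero_le _
      ring_nf at h1 h2 h3 h4 h5 h6 hlam
      linarith
    · intro h1
      have h2 : lam * (x * q₁ + y₁ * p) ≤ lam * (T₁ + p * q₁) := Nat.mul_le_mul_left _ h1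
      nlinarith
  unfold H
  have c1' : p * (lam * q₁ + del) < p * (lam * y₁ + j * del) + (l + 1) * (lam * q₁ + del) ↔
      p * q₁ < p * y₁ + (l + 1) * q₁ := by
    rw [← not_le, ← not_le, c1]
  simp only [c1, c2, c3, c1']

end Pool.Agent.H25.Ternary
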