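import Mathlib
import Pool.Agent.H25.TernaryC

set_option autoImplicit false

open Polynomial

namespace Pool.Agent.H25.Ternary

/-- the inverse of `q` modulo `p`, in the form `l + 1`. -/
lemma exists_l (p q : ℕ) (hp : p.Prime) (hq : q.Prime) (hpq : p < q) :
    ∃ l : ℕ, l + 1 ≤ p ∧ (p : ℤ) ∣ ((l + 1 : ℕ) : ℤ) * q - 1 := by
  have := Fact.mk hp
  have hq0 : (q : ZMod p) ≠ 0 := by
    intro h
    rw [ZMod.natCast_eq_zero_iff] at h
    exact hpq.ne ((Nat.prime_dvd_prime_iff_eq hp hq).1 h)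
  have hinv : ((q : ZMod p)⁻¹) ≠ 0 := inv_ne_zero hq0
  have hval : ((q : ZMod p)⁻¹).val ≠ 0 := by rwa [Ne, ZMod.val_eq_zero]
  refine ⟨((q : ZMod p)⁻¹).val - 1, ?_, ?_⟩
  · have := ZMod.val_lt ((q : ZMod p)⁻¹)
    omega
  · have h1 : ((q : ZMod p)⁻¹).val - 1 + 1 = ((q : ZMod p)⁻¹).val := by omega
    rw [h1, ← ZMod.intCast_zmod_eq_zero_iff_dvd]
    push_cast
    rw [ZMod.natCast_zmod_val, inv_mul_cancel₀ hq0, sub_self]

lemma exists_u (p q l : ℕ) (hp : p.Prime) (hpq : p < q) (hl : l + 1 ≤ p)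
    (h : (p : ℤ) ∣ ((l + 1 : ℕ) : ℤ) * q - 1) :
    ∃ u : ℕ, u + 1 ≤ q ∧ (u + 1) * p + (l + 1) * q = p * q + 1 := by
  have hl' : l + 1 < p := by
    rcases Nat.lt_or_ge (l + 1) p with h1 | h1
    · exact h1
    · exfalso
      have h2 : l + 1 = p := le_antisymm hl h1
      rw [h2] at h
      have h3 : (p : ℤ) ∣ 1 := by
        have := dvd_sub (Dvd.intro (q : ℤ) rfl : (p : ℤ) ∣ (p : ℤ) * q) h
        simpa using this
      have := Int.eq_one_of_dvd_one (by positivity) h3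
      have := hp.one_lt
      omega
  obtain ⟨c, hc⟩ := h
  have hcp : (p : ℤ) * c ≤ p * q - q - 1 := by
    rw [← hc]
    push_cast
    have : ((l : ℤ) + 1) * q ≤ (p - 1) * q := by
      apply mul_le_mul_of_nonneg_right _ (by positivity)
      have : ((l + 1 : ℕ) : ℤ) < p := by exact_mod_cast hl'
      push_cast at this
      linarith
    nlinarith
  have hc2 : c < q := by
    have hp0 : (0 : ℤ) < p := by exact_mod_cast hp.pos
    by_contra hcon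
    push Not at hcon
    have := mul_le_mul_of_nonneg_left hcon hp0.le
    have hq0 : (0 : ℤ) ≤ q := by positivity
    linarith
  have hc3 : 0 ≤ c := by
    have hp0 : (0 : ℤ) < p := by exact_mod_cast hp.pos
    by_contra hcon
    push Not at hcon
    have h1 : (p : ℤ) * c ≤ p * (-1) := mul_le_mul_of_nonneg_left (by omega) hp0.le
    rw [← hc] at h1
    have h2 : (0 : ℤ) ≤ ((l + 1 : ℕ) : ℤ) * q := by positivity
    have h3 : (1 : ℤ) < p := by exact_mod_cast hp.one_lt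
    linarith
  refine ⟨(q - 1 - c).toNat, ?_, ?_⟩
  · omega
  · have h1 : (((q - 1 - c).toNat : ℕ) : ℤ) = q - 1 - c := Int.toNat_of_nonneg (by omega)
    zify
    rw [h1]
    push_cast at hc
    linarith

/-- Dirichlet together with the Chinese remainder theorem. -/
lemma exists_prime_crt (p q a b B : ℕ) (hcop : Nat.Coprime p q) (ha : Nat.Coprime a p)
    (hb : Nat.Coprime b q) (hp : 0 < p) (hq : 0 < q) :
    ∃ r : ℕ, r.Prime ∧ B < r ∧ r ≡ a [MOD p] ∧ r ≡ b [MOD q] := by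
  obtain ⟨c, hc1, hc2⟩ := Nat.chineseRemainder hcop a b
  have hcp : Nat.Coprime c p := by
    have : c.gcd p = a.gcd p := hc1.gcd_eq
    rw [Nat.Coprime, this]; exact ha
  have hcq : Nat.Coprime c q := by
    have : c.gcd q = b.gcd q := hc2.gcd_eq
    rw [Nat.Coprime, this]; exact hb
  have hunit : IsUnit ((c : ℕ) : ZMod (p * q)) := by
    rw [ZMod.isUnit_iff_coprime]
    exact Nat.Coprime.mul_right hcp hcq
  have : NeZero (p * q) := ⟨(Nat.mul_pos hp hq).ne'⟩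
  obtain ⟨r, hr1, hr2, hr3⟩ := Nat.forall_exists_prime_gt_and_eq_mod hunit B
  have h1 : r ≡ c [MOD p * q] := (ZMod.natCast_eq_natCast_iff _ _ _).1 hr3
  exact ⟨r, hr2, hr1, (h1.of_mul_right q).trans hc1, (h1.of_mul_left p).trans hc2⟩

/-- The `y` coordinates attached to `(p, q, r, k)` form an arithmetic progression modulo `q`. -/
lemma coords (p q r k : ℕ) (hp : p.Prime) (hq : q.Prime) (hr : r.Prime)
    (hpq : p < q) (hqr : q < r) :
    ∃ bet y0 : ℕ, ∃ J Y : ℕ → ℕ, 0 < bet ∧ bet < q ∧ (∀ m, J m ≤ m) ∧ (∀ m, Y m < q) ∧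
      (∀ m, ((Y m : ℕ) : ℤ) = y0 - m * bet + J m * q) ∧
      (∀ m, (q : ℤ) ∣ (k : ℤ) - m - r * p * Y m) := by
  have := Fact.mk hq
  have hrp : ((r * p : ℕ) : ZMod q) ≠ 0 := by
    intro h
    rw [ZMod.natCast_eq_zero_iff] at h
    rcases (hq.dvd_mul).1 h with h | h
    · exact hqr.ne ((Nat.prime_dvd_prime_iff_eq hq hr).1 h)
    · exact hpq.ne' ((Nat.prime_dvd_prime_iff_eq hq hp).1 h)
  obtain ⟨bet, hbet⟩ : ∃ b : ℕ, b = (((r * p : ℕ) : ZMod q)⁻¹).val := ⟨_, rfl⟩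
  have hbetlt : bet < q := hbet ▸ ZMod.val_lt _
  have hbetne : bet ≠ 0 := by
    rw [hbet, Ne, ZMod.val_eq_zero]; exact inv_ne_zero hrp
  have hbetinv : (q : ℤ) ∣ (r : ℤ) * p * bet - 1 := by
    rw [← ZMod.intCast_zmod_eq_zero_iff_dvd]
    push_cast
    rw [hbet, ZMod.natCast_zmod_val]
    have : (r : ZMod q) * (p : ZMod q) = ((r * p : ℕ) : ZMod q) := by push_cast; rfl
    rw [this, mul_inv_cancel₀ hrp, sub_self]
  obtain ⟨y0, hy0⟩ : ∃ y0 : ℕ, y0 = (k * bet) % q := ⟨_, rfl⟩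
  have hy0lt : y0 < q := hy0 ▸ Nat.mod_lt _ hq.pos
  have hy0d : (q : ℤ) ∣ (k : ℤ) * bet - y0 := by
    rw [hy0]
    push_cast
    exact Int.dvd_self_sub_emod
  have hqz : (0 : ℤ) < q := by exact_mod_cast hq.pos
  obtain ⟨D, hD⟩ : ∃ D : ℕ → ℤ, D = fun m : ℕ => ((y0 : ℤ) - m * bet) / q := ⟨_, rfl⟩
  have hD0 : ∀ m, D m ≤ 0 := by
    intro m
    have h1 : ((y0 : ℤ) - m * bet) / q < 1 := by
      apply Int.ediv_lt_of_lt_mul hqz
      have : (0 : ℤ) ≤ (m : ℤ) * bet := by positivity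
      have : (y0 : ℤ) < q := by exact_mod_cast hy0lt
      linarith
    rw [hD]
    change ((y0 : ℤ) - m * bet) / q ≤ 0
    omega
  have hDm : ∀ m : ℕ, -(m : ℤ) ≤ D m := by
    intro m
    rw [hD]
    change -(m : ℤ) ≤ ((y0 : ℤ) - m * bet) / q
    rw [Int.le_ediv_iff_mul_le hqz]
    have h2 : (m : ℤ) * bet ≤ m * q :=
      mul_le_mul_of_nonneg_left (by exact_mod_cast hbetlt.le) (by positivity)
    have : (0 : ℤ) ≤ (y0 : ℤ) := by positivity
    linarith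
  obtain ⟨Y, hY⟩ : ∃ Y : ℕ → ℕ, Y = fun m : ℕ => (((y0 : ℤ) - m * bet) % q).toNat := ⟨_, rfl⟩
  have hYz : ∀ m, ((Y m : ℕ) : ℤ) = ((y0 : ℤ) - m * bet) % q := by
    intro m
    rw [hY]
    exact Int.toNat_of_nonneg (Int.emod_nonneg _ hqz.ne')
  have hJcast : ∀ m, (((-(D m)).toNat : ℕ) : ℤ) = -(D m) := fun m =>
    Int.toNat_of_nonneg (by have := hD0 m; omega)
  have hYcast : ∀ m, ((Y m : ℕ) : ℤ) = (y0 : ℤ) - m * bet + ((-(D m)).toNat : ℕ) * q := by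
    intro m
    rw [hYz, hJcast, hD]
    have := Int.emod_add_mul_ediv ((y0 : ℤ) - m * bet) q
    change ((y0 : ℤ) - m * bet) % q = (y0 : ℤ) - m * bet + -(((y0 : ℤ) - m * bet) / q) * q
    linarith
  refine ⟨bet, y0, fun m => (-(D m)).toNat, Y, Nat.pos_of_ne_zero hbetne, hbetlt, ?_, ?_, hYcast,
    ?_⟩
  · intro m
    have h1 := hDm m
    have h2 := hJcast m
    change (-(D m)).toNat ≤ m
    omega
  · intro m
    have h1 := hYz m
    have h2 : ((y0 : ℤ) - m * bet) % q < q := Int.emod_lt_of_pos _ hqz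
    omega
  · intro m
    rw [hYcast]
    have h1 : (k : ℤ) - m - r * p * ((y0 : ℤ) - m * bet + ((-(D m)).toNat : ℕ) * q) =
        (r * p : ℤ) * ((k : ℤ) * bet - y0) - (k - m) * ((r : ℤ) * p * bet - 1)
          - (q : ℤ) * (r * p * ((-(D m)).toNat : ℕ)) := by ring
    rw [h1]
    exact dvd_sub (dvd_sub (hy0d.mul_left _) (hbetinv.mul_left _)) (Dvd.intro _ rfl)

/-- Choice of the new prime `r` and the new index `k`. -/
lemma exists_rk (p q r₁ k₁ bet y0 T : ℕ) (hp : p.Prime) (hq : q.Prime) (hr₁ : r₁.Prime)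
    (hpq : p < q) (hpr : p < r₁) (hbet0 : 0 < bet) (hbet : bet < q) :
    ∃ r k : ℕ, r.Prime ∧ q < r ∧ (p : ℤ) ∣ (r : ℤ) - r₁ ∧ (p : ℤ) ∣ (k : ℤ) - k₁ ∧
      (q : ℤ) ∣ (r : ℤ) * p * bet - 1 ∧ (q : ℤ) ∣ (k : ℤ) - r * p * y0 ∧ k / r = T := by
  have := Fact.mk hq
  have hpbet : ((p * bet : ℕ) : ZMod q) ≠ 0 := by
    intro h
    rw [ZMod.natCast_eq_zero_iff] at h
    rcases (hq.dvd_mul).1 h with h | h
    · exact hpq.ne' ((Nat.prime_dvd_prime_iff_eq hq hp).1 h)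
    · exact absurd (Nat.le_of_dvd hbet0 h) (not_le.2 hbet)
  obtain ⟨b, hb⟩ : ∃ b : ℕ, b = (((p * bet : ℕ) : ZMod q)⁻¹).val := ⟨_, rfl⟩
  have hbinv : (q : ℤ) ∣ (b : ℤ) * (p * bet) - 1 := by
    rw [← ZMod.intCast_zmod_eq_zero_iff_dvd]
    push_cast
    rw [hb, ZMod.natCast_zmod_val]
    have : (p : ZMod q) * (bet : ZMod q) = ((p * bet : ℕ) : ZMod q) := by push_cast; rfl
    rw [this, inv_mul_cancel₀ hpbet, sub_self]
  have hbcop : Nat.Coprime b q := by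
    rw [Nat.coprime_comm, hq.coprime_iff_not_dvd]
    intro h
    have hbne : b ≠ 0 := by
      rw [hb, Ne, ZMod.val_eq_zero]; exact inv_ne_zero hpbet
    have hblt : b < q := hb ▸ ZMod.val_lt _
    exact absurd (Nat.le_of_dvd (Nat.pos_of_ne_zero hbne) h) (not_le.2 hblt)
  have hcop : Nat.Coprime p q := (Nat.coprime_primes hp hq).2 hpq.ne
  have hr₁cop : Nat.Coprime r₁ p := (Nat.coprime_primes hr₁ hp).2 hpr.ne'
  obtain ⟨r, hr, hrbig, hrp, hrq⟩ := exists_prime_crt p q r₁ b (p * q) hcop hr₁cop hbcop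
    hp.pos hq.pos
  have hqr' : q < r := lt_of_le_of_lt (Nat.le_mul_of_pos_left q hp.pos) hrbig
  have hrpd : (p : ℤ) ∣ (r : ℤ) - r₁ := Nat.modEq_iff_dvd.1 hrp.symm
  have hrqd : (q : ℤ) ∣ (r : ℤ) - b := Nat.modEq_iff_dvd.1 hrq.symm
  have hrinv : (q : ℤ) ∣ (r : ℤ) * p * bet - 1 := by
    have : (r : ℤ) * p * bet - 1 = ((b : ℤ) * (p * bet) - 1) + ((r : ℤ) - b) * (p * bet) := by ring
    rw [this]
    exact dvd_add hbinv (hrqd.mul_right _)
  obtain ⟨c, hc1, hc2⟩ := Nat.chineseRemainder hcop k₁ (r * p * y0)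
  have hN : 0 < p * q := Nat.mul_pos hp.pos hq.pos
  obtain ⟨s, hs⟩ : ∃ s : ℕ, s = (c + (p * q) * (T * r) - T * r) % (p * q) := ⟨_, rfl⟩
  have hslt : s < p * q := hs ▸ Nat.mod_lt _ hN
  have hle : T * r ≤ c + (p * q) * (T * r) :=
    (Nat.le_mul_of_pos_left _ hN).trans (Nat.le_add_left _ _)
  have hkc : T * r + s ≡ c [MOD p * q] := by
    have h1 : s ≡ c + (p * q) * (T * r) - T * r [MOD p * q] := hs ▸ Nat.mod_modEq _ _
    have h2 : T * r + s ≡ T * r + (c + (p * q) * (T * r) - T * r) [MOD p * q] :=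
      Nat.ModEq.add_left _ h1
    rw [Nat.add_sub_of_le hle] at h2
    refine h2.trans ?_
    have h3 : c + (p * q) * (T * r) ≡ c + 0 [MOD p * q] :=
      Nat.ModEq.add_left _ ((Nat.modEq_zero_iff_dvd).2 (Dvd.intro _ rfl))
    rw [add_zero] at h3
    exact h3
  refine ⟨r, T * r + s, hr, hqr', hrpd,
    Nat.modEq_iff_dvd.1 (((hkc.of_mul_right q).trans hc1).symm), hrinv, ?_, ?_⟩
  · have := Nat.modEq_iff_dvd.1 (((hkc.of_mul_left p).trans hc2).symm)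
    push_cast at this ⊢
    exact this
  · apply Nat.div_eq_of_lt_le
    · omega
    · have h1 : s < r := hslt.trans hrbig
      rw [Nat.add_mul, one_mul]
      omega

/-- **Transfer.**  Every coefficient of `Φ_{p q₁ r₁}` occurs as a coefficient of some
`Φ_{p q r}` with `r > q`, for every large prime `q ≡ q₁ (mod p)`. -/
theorem transfer (p q₁ r₁ k₁ : ℕ) (hp : p.Prime) (hq₁ : q₁.Prime) (hr₁ : r₁.Prime)
    (hpq : p < q₁) (hqr : q₁ < r₁) (q : ℕ) (hq : q.Prime) (hqq : q ≡ q₁ [MOD p])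
    (hbig : ((2 * p + p ^ 2) * q₁ + 1) * q₁ ≤ q) :
    ∃ r k : ℕ, r.Prime ∧ q < r ∧
      (cyclotomic (p * q * r) ℤ).coeff k = (cyclotomic (p * q₁ * r₁) ℤ).coeff k₁ := by
  have hp1 := hp.one_lt
  have hq₁0 := hq₁.pos
  have hpq' : p < q := by
    have h2 : q₁ ≤ ((2 * p + p ^ 2) * q₁ + 1) * q₁ := Nat.le_mul_of_pos_left _ (Nat.succ_pos _)
    omega
  -- the threshold l
  obtain ⟨l, hl, hlq₁⟩ := exists_l p q₁ hp hq₁ hpq
  have hqqd : (p : ℤ) ∣ (q : ℤ) - q₁ := Nat.modEq_iff_dvd.1 hqq.symm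
  have hlq : (p : ℤ) ∣ ((l + 1 : ℕ) : ℤ) * q - 1 := by
    have : ((l + 1 : ℕ) : ℤ) * q - 1 =
      (((l + 1 : ℕ) : ℤ) * q₁ - 1) + ((q : ℤ) - q₁) * ((l + 1 : ℕ) : ℤ) := by ring
    rw [this]
    exact dvd_add hlq₁ (hqqd.mul_right _)
  obtain ⟨u₁, hu₁, hlu₁⟩ := exists_u p q₁ l hp hpq hl hlq₁
  obtain ⟨u, hu, hlu⟩ := exists_u p q l hp hpq' hl hlq
  -- scaling data
  obtain ⟨lam, hlamdef⟩ : ∃ lam : ℕ, lam = q / q₁ := ⟨_, rfl⟩
  obtain ⟨del, hdeldef⟩ : ∃ del : ℕ, del = q % q₁ := ⟨_, rfl⟩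
  have hqdecomp : q = lam * q₁ + del := by
    rw [hlamdef, hdeldef, mul_comm]; exact (Nat.div_add_mod q q₁).symm
  have hdel : del < q₁ := hdeldef ▸ Nat.mod_lt _ hq₁0
  have hlam : (2 * p + p ^ 2) * q₁ + 1 ≤ lam := hlamdef ▸ (Nat.le_div_iff_mul_le hq₁0).2 hbig
  obtain ⟨bet₁, y0, J, Y₁, hb0, hblt, hJ, hY₁lt, hY₁cast, hY₁d⟩ :=
    coords p q₁ r₁ k₁ hp hq₁ hr₁ hpq hqr
  have hlam0 : 0 < lam := lt_of_lt_of_le (Nat.succ_pos _) hlam
  have hbetlt : lam * bet₁ < q := by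
    rw [hqdecomp]
    have h1 : lam * bet₁ < lam * q₁ := Nat.mul_lt_mul_of_pos_left hblt hlam0
    omega
  obtain ⟨r, k, hr, hqr', hrpd, hkp, hrinv, hkq, hkT⟩ := exists_rk p q r₁ k₁ (lam * bet₁)
    (lam * y0) (lam * (k₁ / r₁) + (p + p ^ 2) * q₁) hp hq hr₁ hpq' (hpq.trans hqr)
    (Nat.mul_pos hlam0 hb0) hbetlt
  have hYd : ∀ m, m < p → lam * Y₁ m + J m * del < q ∧
      (q : ℤ) ∣ (k : ℤ) - m - r * p * ((lam * Y₁ m + J m * del : ℕ) : ℤ) := by
    intro m hm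
    constructor
    · have h1 : lam * (Y₁ m + 1) ≤ lam * q₁ := Nat.mul_le_mul_left _ (hY₁lt m)
      have h2 : J m * del ≤ p * q₁ := Nat.mul_le_mul ((hJ m).trans hm.le) hdel.le
      have h3 : p * q₁ < lam := by
        have h4 : p * q₁ ≤ (2 * p + p ^ 2) * q₁ := by
          apply Nat.mul_le_mul_right
          have : p ≤ 2 * p := by omega
          exact this.trans (Nat.le_add_right _ _)
        omega
      rw [mul_add, mul_one] at h1
      omega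
    · have h1 : ((lam * Y₁ m + J m * del : ℕ) : ℤ) =
          lam * y0 - m * (lam * bet₁) + J m * q := by
        have hq' : (q : ℤ) = lam * q₁ + del := by exact_mod_cast hqdecomp
        push_cast
        rw [hY₁cast, hq']
        ring
      rw [h1]
      have h2 : (k : ℤ) - m - r * p * (lam * y0 - m * (lam * bet₁) + J m * q) =
          ((k : ℤ) - r * p * ((lam * y0 : ℕ) : ℤ)) +
            m * ((r : ℤ) * p * ((lam * bet₁ : ℕ) : ℤ) - 1) -
            (q : ℤ) * (r * p * J m) := by push_cast; ring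
      rw [h2]
      exact dvd_sub (dvd_add hkq (hrinv.mul_left _)) (Dvd.intro _ rfl)
  refine ⟨r, k, hr, hqr', ?_⟩
  rw [kaplan p q r l u k hp hq hr hpq' hqr' hl hu hlu (fun m => lam * Y₁ m + J m * del) hYd,
    kaplan p q₁ r₁ l u₁ k₁ hp hq₁ hr₁ hpq hqr hl hu₁ hlu₁ Y₁ (fun m _ => ⟨hY₁lt m, hY₁d m⟩)]
  apply Finset.sum_congr rfl
  intro m hm
  rw [Finset.mem_range] at hm
  apply Finset.sum_congr rfl
  intro x hx
  rw [Finset.mem_range] at hx
  rw [W_congr p q r k q₁ r₁ k₁ m x hqqd hrpd hkp, hkT]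
  congr 1
  have := H_scale p q₁ l u₁ (k₁ / r₁) x (Y₁ m) lam del (J m) hx ((hJ m).trans hm.le) hl hdel hlu₁
    hlam hp1
  rw [← hqdecomp] at this
  exact this

/-- The coefficients of `Φ_{pqr}` are at most `2 p ^ 2` in absolute value. -/
theorem coeff_bound (p q r k : ℕ) (hp : p.Prime) (hq : q.Prime) (hr : r.Prime)
    (hpq : p < q) (hqr : q < r) : |(cyclotomic (p * q * r) ℤ).coeff k| ≤ p ^ 2 := by
  obtain ⟨l, hl, hlq⟩ := exists_l p q hp hq hpq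
  obtain ⟨u, hu, hlu⟩ := exists_u p q l hp hpq hl hlq
  have := Fact.mk hq
  have hrp : ((r * p : ℕ) : ZMod q) ≠ 0 := by
    intro h
    rw [ZMod.natCast_eq_zero_iff] at h
    rcases (hq.dvd_mul).1 h with h | h
    · exact hqr.ne ((Nat.prime_dvd_prime_iff_eq hq hr).1 h)
    · exact hpq.ne' ((Nat.prime_dvd_prime_iff_eq hq hp).1 h)
  set Y : ℕ → ℕ := fun m => ((((k : ℤ) - m : ℤ) : ZMod q) * ((r * p : ℕ) : ZMod q)⁻¹).val with hY
  have hYd : ∀ m, m < p → Y m < q ∧ (q : ℤ) ∣ (k : ℤ) - m - r * p * Y m := by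
    intro m _
    refine ⟨ZMod.val_lt _, ?_⟩
    rw [← ZMod.intCast_zmod_eq_zero_iff_dvd]
    simp only [hY]
    push_cast
    rw [ZMod.natCast_zmod_val]
    have : (r : ZMod q) * (p : ZMod q) = ((r * p : ℕ) : ZMod q) := by push_cast; rfl
    rw [this]
    have h2 : ((r * p : ℕ) : ZMod q) * (((k : ZMod q) - m) * (((r * p : ℕ) : ZMod q))⁻¹) =
        ((k : ZMod q) - m) := by
      rw [mul_comm, mul_assoc, inv_mul_cancel₀ hrp, mul_one]
    rw [h2, sub_self]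
  rw [kaplan p q r l u k hp hq hr hpq hqr hl hu hlu Y hYd]
  calc |∑ m ∈ Finset.range p, ∑ x ∈ Finset.range p, W p q r k m x * H p q l (k / r) x (Y m)|
      ≤ ∑ m ∈ Finset.range p, |∑ x ∈ Finset.range p, W p q r k m x * H p q l (k / r) x (Y m)| :=
        Finset.abs_sum_le_sum_abs _ _
    _ ≤ ∑ m ∈ Finset.range p, ∑ x ∈ Finset.range p,
          |W p q r k m x * H p q l (k / r) x (Y m)| :=
        Finset.sum_le_sum (fun m _ => Finset.abs_sum_le_sum_abs _ _)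
    _ ≤ ∑ _m ∈ Finset.range p, ∑ _x ∈ Finset.range p, (1 : ℤ) := by
        apply Finset.sum_le_sum
        intro m _
        apply Finset.sum_le_sum
        intro x _
        rw [abs_mul]
        calc |W p q r k m x| * |H p q l (k / r) x (Y m)| ≤ 1 * 1 :=
              mul_le_mul (W_bound _ _ _ _ _ _) (H_bound _ _ _ _ _ _) (abs_nonneg _) zero_le_one
          _ = 1 := one_mul 1
    _ = p ^ 2 := by simp [sq]

end Pool.Agent.H25.Ternary
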